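import Pool.Agent.H84.LSB.Targets
import Pool.Agent.H88.B2.Targets2

/-!
Bridge: the statement of the high-low alternative used in `H88.B2.Targets2` follows from the one
of `H84.LSB.Targets` (MP_ee74d2_an).
-/

set_option autoImplicit false

namespace Pool.Agent.H84.HLM

open Pool.Agent.H83.G

theorem hl88 (h : Pool.Agent.H84.LSB.T_HL) : Pool.Agent.H88.B2.T_HL := by
  intro δ hδ hδ1
  obtain ⟨N₀, hN₀⟩ := h δ hδ hδ1
  refine ⟨N₀, fun N hN => ?_⟩
  obtain ⟨C, hC1, hC⟩ := hN₀ N hN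
  refine ⟨C, hC1, ?_⟩
  intro R w M₁ M P X hR hCR hw hw1 hM₁ _ hM hP hPc hX h1 h2 h3
  have hPc' : (P.card : ℝ) ≤ R ^ 10 := by
    have e : R ^ (10 : ℝ) = R ^ (10 : ℕ) := by
      exact_mod_cast Real.rpow_natCast R 10
    rw [e] at hPc
    exact hPc
  have hlo : 0 ≤ lo 2 := by
    unfold lo
    positivity
  have key := hC R w M₁ M P X hR hCR hw hw1 hM₁ hM hP hPc' hX h1 h2 h3
  refine key.trans ?_
  have hR0 : (0 : ℝ) < R := lt_of_lt_of_le one_pos hR
  have hexp : R ^ (3 * lo 2 * δ) ≤ R ^ (lo 2 * (8 * δ)) := by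
    apply Real.rpow_le_rpow_of_exponent_le hR
    nlinarith [mul_nonneg hlo hδ.le]
  have hw0 : 0 ≤ w := le_trans (Real.rpow_nonneg hR0.le _) hw
  have hC0 : 0 ≤ C := le_trans zero_le_one hC1
  gcongr

end Pool.Agent.H84.HLM
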