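import Pool.Agent.H84.LSB.TargetsHL

/-! HSP: supports of the bumps of frequency about `1/w`, dilated by `w` (board hlm_modules). -/

set_option autoImplicit false

namespace Pool.Agent.H84.HLM

open MeasureTheory Set Pool.Agent.H83.G Pool.Agent.H88.B2 Pool.Agent.H84.LSB
open Pool.Agent.H82.FP (Tu)
open scoped ENNReal NNReal RealInnerProductSpace

theorem pf_HSP (hLOA : T_LOA) : T_HSP := by
  refine ⟨2, by norm_num, ?_⟩
  intro m c s w η ζ' ζ hc hc1 hs hs1 hw hζ' hζ h1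
  have hwc : 0 < w * c := by positivity
  set L := Ld η s ζ' with hL
  have hL1 : L.1 = ζ'.1 := rfl
  have e1 : ζ.1 = w * (c * L.1) := by rw [hζ]; simp [smul_eq_mul]
  have e2 : ζ.2.1 = w • c • L.2.1 := by rw [hζ]; simp
  have e3 : ζ.2.2 = w * (c * L.2.2) := by rw [hζ]; simp [smul_eq_mul]
  have hpos : 0 < ζ'.1 := by
    have h2 : 0 < w * (c * ζ'.1) := by rw [← hL1, ← e1]; linarith
    by_contra h3
    have h4 : w * (c * ζ'.1) ≤ 0 :=
      mul_nonpos_of_nonneg_of_nonpos (by linarith) (mul_nonpos_of_nonneg_of_nonpos hc.le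
        (not_lt.mp h3))
    linarith
  obtain ⟨-, k2, k3⟩ := (hLOA m).2.2.2.2.2 η s ζ' hpos.ne'
  rw [← hL] at k2 k3
  have hn1 : ‖ζ'.2.1‖ ≤ 1 / 1000 := (norm_fst_le ζ'.2).trans ((norm_snd_le ζ').trans hζ')
  have hn2 : |ζ'.2.2| ≤ 1 / 1000 := by
    rw [← Real.norm_eq_abs]
    exact (norm_snd_le ζ'.2).trans ((norm_snd_le ζ').trans hζ')
  have hinv : ζ'.1⁻¹ ≤ 2 * (w * c) := by
    rw [inv_le_comm₀ hpos (by positivity)]
    have h2 : 1 / 2 ≤ (w * c) * ζ'.1 := by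
      calc 1 / 2 ≤ ζ.1 := h1
        _ = (w * c) * ζ'.1 := by rw [e1, hL1]; ring
    rw [inv_eq_one_div, div_le_iff₀ (by positivity)]
    linarith
  have hinv0 : 0 < ζ'.1⁻¹ := inv_pos.mpr hpos
  have hwc1 : w * c ≤ w := by nlinarith
  have q1 : ζ.1⁻¹ • ζ.2.1 = L.1⁻¹ • L.2.1 := by
    rw [e1, e2, smul_smul, smul_smul]
    congr 1
    have hL0 : L.1 ≠ 0 := by rw [hL1]; exact hpos.ne'
    field_simp
  have q2 : ζ.2.2 - ‖ζ.2.1‖ ^ 2 / ζ.1 = (w * c) * (L.2.2 - ‖L.2.1‖ ^ 2 / L.1) := by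
    rw [e1, e2, e3, norm_smul, norm_smul, Real.norm_of_nonneg (by linarith : (0 : ℝ) ≤ w),
      Real.norm_of_nonneg hc.le]
    have hL0 : L.1 ≠ 0 := by rw [hL1]; exact hpos.ne'
    field_simp
  constructor
  · rw [q1, k2, norm_smul, norm_smul, Real.norm_of_nonneg hs.le, Real.norm_of_nonneg hinv0.le]
    calc s * (ζ'.1⁻¹ * ‖ζ'.2.1‖) ≤ s * ((2 * w) * 1) := by
          refine mul_le_mul_of_nonneg_left ?_ hs.le
          exact mul_le_mul (by linarith) (by linarith) (norm_nonneg _) (by positivity)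
      _ = 2 * (w * s) := by ring
  · rw [q2, k3, abs_mul, abs_of_pos hwc, abs_mul, abs_of_nonneg (sq_nonneg s)]
    have h5 : ‖ζ'.2.1‖ ^ 2 / ζ'.1 ≤ 1 / 1000 * w := by
      rw [div_eq_mul_inv]
      calc ‖ζ'.2.1‖ ^ 2 * ζ'.1⁻¹ ≤ (1 / 1000) ^ 2 * (2 * (w * c)) :=
            mul_le_mul (pow_le_pow_left₀ (norm_nonneg _) hn1 2) hinv hinv0.le (by positivity)
        _ ≤ 1 / 1000 * w := by nlinarith
    have h6 : 0 ≤ ‖ζ'.2.1‖ ^ 2 / ζ'.1 := by positivity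
    have h7 : |ζ'.2.2 - ‖ζ'.2.1‖ ^ 2 / ζ'.1| ≤ w := by
      have := abs_le.mp hn2
      rw [abs_le]
      constructor <;> linarith
    calc w * c * (s ^ 2 * |ζ'.2.2 - ‖ζ'.2.1‖ ^ 2 / ζ'.1|) ≤ w * (s ^ 2 * w) := by
          refine mul_le_mul hwc1 ?_ (by positivity) (by linarith)
          exact mul_le_mul_of_nonneg_left h7 (sq_nonneg s)
      _ ≤ 2 * (w * s) ^ 2 := by nlinarith [sq_nonneg (w * s)]

end Pool.Agent.H84.HLM
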