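import Pool.Agent.H84.LSB.TargetsHL

/-! KBL: the lattice of the caps of radius `w R^(-1/2)` (board hlm_modules). -/

set_option autoImplicit false

namespace Pool.Agent.H84.HLM

open MeasureTheory Set Pool.Agent.H83.G Pool.Agent.H88.B2 Pool.Agent.H84.LSB
open Pool.Agent.H82.FP (Tu)
open scoped ENNReal NNReal RealInnerProductSpace

private theorem nE2 (x : E 2) (a : ℝ) (ha : 0 ≤ a) (h : ∀ i, |x i| ≤ a / 3) : ‖x‖ ≤ a := by
  rw [EuclideanSpace.norm_eq]
  refine Real.sqrt_le_iff.mpr ⟨ha, ?_⟩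
  rw [Fin.sum_univ_two]
  have h0 := h 0
  have h1 := h 1
  rw [Real.norm_eq_abs, Real.norm_eq_abs]
  have := abs_nonneg (x 0)
  have := abs_nonneg (x 1)
  nlinarith

open scoped Classical in
theorem pf_KBL : T_KBL := by
  intro R w k hR hw
  have hR0 : 0 < R := by linarith
  have hw0 : 0 < w := by linarith
  have hs : 0 < sR R := by
    unfold sR
    exact inv_pos.mpr (Real.sqrt_pos.mpr hR0)
  have hfl : ∀ i, |(k i : ℝ) / w - (⌊(k i : ℝ) / w⌋ : ℝ)| ≤ 1 := by
    intro i
    have h1 := Int.floor_le ((k i : ℝ) / w)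
    have h2 := Int.lt_floor_add_one ((k i : ℝ) / w)
    rw [abs_le]
    constructor <;> linarith
  refine ⟨?_, ?_, ?_, ?_⟩
  · refine nE2 _ _ (by positivity) fun i => ?_
    have e1 : (ctr (sR R) k - ctr (w * sR R) (kb w k)) i =
        (w * sR R / 3) * ((k i : ℝ) / w - (⌊(k i : ℝ) / w⌋ : ℝ)) := by
      unfold ctr kb
      simp only [PiLp.sub_apply, PiLp.smul_apply, smul_eq_mul]
      push_cast
      field_simp
      ring
    rw [e1, abs_mul, abs_of_pos (by positivity)]
    have := hfl i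
    have h3 : 0 ≤ w * sR R / 3 := by positivity
    nlinarith
  · intro hk
    unfold Ks
    rw [Fintype.mem_piFinset]
    intro i
    rw [Finset.mem_Icc]
    have h1 : |(ctr (sR R) k) i| ≤ 3 := by
      rw [← Real.norm_eq_abs]
      exact (PiLp.norm_apply_le _ i).trans hk
    have e1 : (ctr (sR R) k) i = sR R / 3 * (k i : ℝ) := by
      unfold ctr
      simp only [PiLp.smul_apply, smul_eq_mul]
      push_cast
      ring
    rw [e1, abs_mul, abs_of_pos (by positivity)] at h1
    have h2 : |(k i : ℝ)| ≤ 9 / sR R := by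
      rw [le_div_iff₀ hs]
      nlinarith
    have e2 : (3 : ℝ) * (((2 : ℕ) : ℝ) + 1) / (w * sR R) = (9 / sR R) / w := by
      push_cast
      field_simp
      norm_num
    rw [e2]
    have h3 := abs_le.mp h2
    unfold kb
    constructor
    · rw [Int.le_floor]
      push_cast
      have h4 : -((9 / sR R) / w) ≤ (k i : ℝ) / w := by
        rw [← neg_div]
        exact div_le_div_of_nonneg_right h3.1 hw0.le
      have h5 := Int.le_ceil ((9 / sR R) / w)
      linarith
    · have h4 : (k i : ℝ) / w ≤ (9 / sR R) / w := div_le_div_of_nonneg_right h3.2 hw0.le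
      exact (Int.floor_mono h4).trans (Int.floor_le_ceil _)
  · unfold sR
    rw [Real.sqrt_div hR0.le, Real.sqrt_sq hw0.le, inv_div, div_eq_mul_inv]
  · intro I j
    have hsub : (I.filter fun k => kb w k = j) ⊆
        Fintype.piFinset fun i => Finset.Icc ⌈w * (j i : ℝ)⌉ (⌈w * (j i : ℝ) + w⌉ - 1) := by
      intro k' hk'
      rw [Finset.mem_filter] at hk'
      rw [Fintype.mem_piFinset]
      intro i
      have h1 : ⌊(k' i : ℝ) / w⌋ = j i := congrFun hk'.2 i
      rw [Int.floor_eq_iff] at h1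
      rw [Finset.mem_Icc]
      constructor
      · rw [Int.ceil_le]
        have := h1.1
        rw [le_div_iff₀ hw0] at this
        linarith
      · have := h1.2
        rw [div_lt_iff₀ hw0] at this
        have h3 : (k' i : ℝ) < w * (j i : ℝ) + w := by linarith
        have h4 : k' i < ⌈w * (j i : ℝ) + w⌉ := Int.lt_ceil.mpr h3
        omega
    refine (Nat.cast_le.mpr (Finset.card_le_card hsub)).trans ?_
    rw [Fintype.card_piFinset, Fin.prod_univ_two, Nat.cast_mul]
    have hc : ∀ i : Fin 2, ((Finset.Icc ⌈w * (j i : ℝ)⌉ (⌈w * (j i : ℝ) + w⌉ - 1)).card : ℝ) ≤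
        2 * w := by
      intro i
      rw [Int.card_Icc]
      have h1 := Int.ceil_lt_add_one (w * (j i : ℝ) + w)
      have h2 := Int.le_ceil (w * (j i : ℝ))
      have h3 : ((⌈w * (j i : ℝ) + w⌉ - 1 + 1 - ⌈w * (j i : ℝ)⌉).toNat : ℝ) ≤
          max (((⌈w * (j i : ℝ) + w⌉ - ⌈w * (j i : ℝ)⌉ : ℤ)) : ℝ) 0 := by
        rcases le_total 0 (⌈w * (j i : ℝ) + w⌉ - ⌈w * (j i : ℝ)⌉) with h | h
        · refine le_trans (le_of_eq ?_) (le_max_left _ _)
          have h5 : ⌈w * (j i : ℝ) + w⌉ - 1 + 1 - ⌈w * (j i : ℝ)⌉ =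
            ⌈w * (j i : ℝ) + w⌉ - ⌈w * (j i : ℝ)⌉ := by ring
          rw [h5]
          have h6 := Int.toNat_of_nonneg h
          exact_mod_cast h6
        · refine le_trans (le_of_eq ?_) (le_max_right _ _)
          have h5 : ⌈w * (j i : ℝ) + w⌉ - 1 + 1 - ⌈w * (j i : ℝ)⌉ ≤ 0 := by linarith
          rw [Int.toNat_of_nonpos h5]
          simp
      refine h3.trans (max_le ?_ (by linarith))
      push_cast
      linarith
    calc _ ≤ (2 * w) * (2 * w) :=
          mul_le_mul (hc 0) (hc 1) (Nat.cast_nonneg _) (by linarith)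
      _ = 4 * w ^ 2 := by ring

end Pool.Agent.H84.HLM
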