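import Pool.Agent.H83.G.Chain
import Pool.Agent.H93.BD.All
import Pool.Agent.H84.HLM.HSP
import Pool.Agent.H84.HLM.KBL
import Pool.Agent.H84.HLM.HLB
import Pool.Agent.H60.HLM.CNV
import Pool.Agent.H60.HLM.HPT
import Pool.Agent.H55.HLM.HCH
import Pool.Agent.H37.HLM.HKN
import Pool.Agent.H37.HLM.OWS
import Pool.Agent.H86.HLM.HL
import Pool.Agent.H83.HLM.HPU
import Pool.Agent.H20.LSB.HRE
import Pool.Agent.H98.HLM.HRG
import Pool.Agent.H98.HLM.MKB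
import Pool.Agent.H4.LSB.HRI
import Pool.Agent.H1.HLM.OWA
import Pool.Agent.H44.HLM.OWI

/-!
The high-low alternative for planks (MP_ee74d2_an, dimension 3), closed.
-/

set_option autoImplicit false

namespace Pool.Agent.H84.HLM.All

open Pool.Agent.H83.G Pool.Agent.H84.LSB
open Pool.Agent.H83.G.Chain

theorem c_KBL : T_KBL := Pool.Agent.H84.HLM.pf_KBL

theorem c_HSP : T_HSP := Pool.Agent.H84.HLM.pf_HSP m_LOA

theorem c_CNV : T_CNV := Pool.Agent.H60.HLM.pf_CNV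

theorem c_HKN : T_HKN := Pool.Agent.H37.HLM.pf_HKN

theorem c_HPT : T_HPT := Pool.Agent.H60.HLM.pf_HPT c_HKN c_CNV m_LOA

theorem c_HPU : T_HPU := Pool.Agent.H83.HLM.pf_HPU

theorem c_HCH : T_HCH := Pool.Agent.H55.HLM.pf_HCH m_LWX m_LOA m_LOI m_SCH m_WT1 m_WT3

theorem c_OWA : T_OWA := Pool.Agent.H1.HLM.pf_OWA

theorem c_OWS : T_OWS := Pool.Agent.H37.HLM.pf_OWS m_LOA m_LOB m_WT1

theorem c_OWI : T_OWI := Pool.Agent.H44.HLM.pf_OWI m_LOI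

theorem c_MKB : T_MKB := Pool.Agent.H98.HLM.pf_MKB c_KBL m_PUS

theorem c_HRG : T_HRG := Pool.Agent.H98.HLM.pf_HRG c_HSP c_KBL c_HKN

theorem c_RDA : Pool.Agent.H83.G.T_RDA := m_RDA Pool.Agent.H93.BD.All.main

theorem c_HRI : T_HRI :=
  Pool.Agent.H4.LSB.HRI.pf_HRI c_RDA c_OWA c_OWS c_OWI c_HPT c_MKB c_HRG c_KBL

theorem c_HRE : T_HRE :=
  Pool.Agent.H20.LSB.pf_HRE c_HRI c_HRG c_MKB c_HPT c_OWA c_OWS c_KBL m_SPW

theorem hl_main : Pool.Agent.H84.LSB.T_HL :=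
  Pool.Agent.H86.HLM.pf_HL c_HCH c_HPU c_HKN c_HPT c_HRE c_OWA

theorem hl_main88 : Pool.Agent.H88.B2.T_HL := Pool.Agent.H84.HLM.hl88 hl_main

end Pool.Agent.H84.HLM.All
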